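import Mathlib
import Pool.Agent.TH115.GD.Defs
import Pool.Agent.N181.T3.Defs
import Pool.Agent.N181.T3.Alt
import Pool.Agent.N181.T3.Den
import Pool.Agent.N181.T3.MW

/-!
# The Tate conjecture at 3 and the Mordell-Weil group for 100% of the elliptic surfaces with a section
# of order three over all finitely generated fields of characteristic different from 3, and all their
# extensions with solvable constants

Let `R` be an integrally closed domain which is finitely generated as a ring and not a field, with
`3 ≠ 0` in `R`, and `k` its field of fractions. (Each infinite finitely generated field of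
characteristic different from 3 is the field of fractions of such an `R`; characteristic 2 is
allowed.) Every elliptic curve over `k(t)` with a rational point of order three has an equation

`E : y² + a x y + b y = x³`

with polynomials `a`, `b`; the point is `(0, 0)`, and the discriminant is `b³ (a³ - 27 b)`. We consider
`a` of degree at most `m` and `b` of degree at most `N`, where `3 m ≤ N` and `N ≥ 5`; for `m = n`,
`N = 3 n` these are all the elliptic surfaces over the projective line with a section of order three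
and fundamental line bundle of degree `n`, and for general `a`, `b` the geometric genus is `n - 1`.

Call `(a, b)` good if `b` and `a³ - 27 b` are irreducible over `k` of degree `N` and separable, and for
EVERY extension field `L` of `k` (for example `L = k`) with a separable closure `L'` the following holds.

(A) If the elements of `L` which are separable algebraic over `k` lie in a normal extension `M` of `k` in
`L'`, such that neither `b` nor `a³ - 27 b` splits into linear factors over `M`, then (`HoldsOver`)

(i) the Tate conjecture for divisors at the prime 3 holds for the elliptic surface `X` over `L` with the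
generic fibre `E` (`TateAt 3`): the classes in `V₃ Sel(E / L'(t))` which are fixed by the Galois group come
from `E(L(t))` (as `Br(X ⊗ L') = Ш(E / L'(t))` up to `p`-torsion by Grothendieck, this is the vanishing of
the Galois invariants of `V₃ Br(X ⊗ L')`);

(ii) in fact these classes are all zero (`NoClasses 3`): on the layer `3ⁿ` each of them is the class of a
division point by `3ⁿ` of a point `P` of `E(L(t))` with `3 P = 0`;

(iii) every point of `E(L(t))` is the sum of a point `T` with `3 T = 0` and three times a point, and if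
`E(L(t))` is finitely generated (the theorem of Lang and Néron for finitely generated `L`), then it is
finite.

(B) The same is true if for each element of `L` which is separable algebraic over `k` the Galois group of
its minimal polynomial over `k` is solvable.

Theorem. Let `3 m ≤ N`, `N ≥ 5`.

(1) (Congruences.) For every `η > 0` there is an ideal `M` of `R` with finite quotient and a set of
residue classes modulo `M` of pairs `(a, b)` over `R` of degrees at most `m`, `N` with proportion at least
`1 - η` among all the residue classes, such that EVERY pair over `R` in one of these residue classes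
is good.

(2) (100%.) Let `B 0`, `B 1`, ... be a sequence of nonempty finite sets of such pairs over `R` which is
equidistributed modulo each ideal of `R` with finite quotient. Then the proportion of the good
pairs in `B i` tends to `1`.

The proof: a descent by the isogenies of degree three `E → E'`, `E' → E` with
`E' : y² + 3 a x y + (a³ - 27 b) y = x³` over `L'(t)`, for classes which are fixed by the Galois group of
`L(t)` (which acts on the cube roots of unity); the first layer of a class gives a divisor supported on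
`b = 0`, fixed by the Galois group up to the divisor of the point `(0, 0)`, and then a divisor supported
on `a³ - 27 b = 0`, which is fixed up to the divisor of a point of order three and up to the character of
the cube roots of unity. If `b` and `a³ - 27 b` stay irreducible over the extensions of `L` of degree at
most three, only the divisors of the points of order three are left. Frobenius elements at maximal ideals
of `R` show that the Galois groups over `k` of `b` and `a³ - 27 b` are the full symmetric groups; the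
alternating groups are perfect, so both polynomials stay irreducible over all extensions of degree at
most three of `L`. Last, a sieve over the maximal ideals of `R`.
-/

namespace Pool.Agent.Results.MP_89bcae_ag.OrderThreeSections

open Polynomial Pool.Agent.TH115.GD Pool.Agent.N181 Filter Topology
open scoped Classical

/-- The polynomial over `k` with the coefficients `c`. -/
noncomputable def poly {R : Type} [CommRing R] (k : Type) [Field k] [Algebra R k] {r : ℕ}
    (c : Fin r → R) : k[X] :=
  ∑ j : Fin r, C (algebraMap R k (c j)) * X ^ (j : ℕ)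

/-- The pairs of coefficient vectors of polynomials of degree at most `m` and `N`. -/
abbrev Pairs (m N : ℕ) (R : Type) : Type := (Fin (m + 1) → R) × (Fin (N + 1) → R)

/-- The curve `y² + a x y + b y = x³` over `K = L(t)`, for polynomials `a`, `b` over the subfield `k` of
`L`. -/
noncomputable abbrev E3 {k : Type} [Field k] (L K : Type) [Field L] [Algebra k L] [Field K]
    [Algebra L[X] K] (a b : k[X]) : WeierstrassCurve K :=
  T3.crv3 (algebraMap L[X] K (a.map (algebraMap k L))) (algebraMap L[X] K (b.map (algebraMap k L)))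

/-- The conclusions over `L` (`L'` is a separable closure of `L`, `K = L(t)`, `F = L'(t)`), for the
polynomials `a`, `b` over the subfield `k` of `L`. -/
def HoldsOver {k : Type} [Field k] (a b : k[X]) (L L' K F : Type) [Field L] [Field L']
    [Algebra L L'] [Field K] [Algebra L[X] K] [Field F] [Algebra L'[X] F]
    [IsFractionRing L'[X] F] [Algebra K F] [Algebra k L] : Prop :=
  T3.TateAt (F := F) 3 L' (E3 L K a b) ∧
    T3.NoClasses (F := F) 3 L' (E3 L K a b) ∧
    (∀ P : Pt (E3 L K a b) K, ∃ Q T : Pt (E3 L K a b) K, 3 • T = 0 ∧ P = 3 • Q + T) ∧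
    (AddGroup.FG (Pt (E3 L K a b) K) → Finite (Pt (E3 L K a b) K))

/-- The good pairs. -/
structure Good (k : Type) [Field k] (N : ℕ) (a b : k[X]) : Prop where
  irrB : Irreducible b ∧ b.natDegree = N ∧ b.Separable
  irrD : Irreducible (a ^ 3 - 27 * b) ∧ (a ^ 3 - 27 * b).natDegree = N ∧
    (a ^ 3 - 27 * b).Separable
  tate : ∀ (L L' K F : Type) [Field L] [Field L'] [Algebra L L'] [Field K] [Algebra L[X] K]
    [Field F] [Algebra L'[X] F] [IsFractionRing L'[X] F] [Algebra K F]
    [Algebra k L] [Algebra k L'] [IsScalarTower k L L'], IsTower L L' K F →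
      ∀ M : IntermediateField k L', Normal k M →
        (∀ x : L, IsSeparable k x → algebraMap L L' x ∈ M) →
        ¬ (b.map (algebraMap k M)).Splits → ¬ ((a ^ 3 - 27 * b).map (algebraMap k M)).Splits →
        HoldsOver a b L L' K F
  solv : ∀ (L L' K F : Type) [Field L] [Field L'] [Algebra L L'] [Field K] [Algebra L[X] K]
    [Field F] [Algebra L'[X] F] [IsFractionRing L'[X] F] [Algebra K F]
    [Algebra k L] [Algebra k L'] [IsScalarTower k L L'], IsTower L L' K F →
      (∀ x : L, IsSeparable k x → Group.IsSolvable (minpoly k x).Gal) →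
        HoldsOver a b L L' K F

/-- The pair `y` over `R` is in the residue class `z`. -/
def InClass {R : Type} [CommRing R] {m N : ℕ} {M : Ideal R} (y : Pairs m N R)
    (z : Pairs m N (R ⧸ M)) : Prop :=
  (∀ j, Ideal.Quotient.mk M (y.1 j) = z.1 j) ∧ (∀ j, Ideal.Quotient.mk M (y.2 j) = z.2 j)

/-- A sequence of finite sets of pairs which is equidistributed modulo each ideal with finite
quotient. -/
def Equidistributed {R : Type} [CommRing R] {m N : ℕ} (B : ℕ → Finset (Pairs m N R)) : Prop :=
  ∀ M : Ideal R, Finite (R ⧸ M) → ∀ z : Pairs m N (R ⧸ M),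
    Tendsto (fun i => (((B i).filter (fun y => InClass y z)).card : ℝ) / ((B i).card : ℝ)) atTop
      (𝓝 (1 / (Nat.card (Pairs m N (R ⧸ M)) : ℝ)))

/-- The vector of all the coefficients. -/
def toV {m N : ℕ} {R : Type} (z : Pairs m N R) : Fin (m + 1) ⊕ Fin (N + 1) → R := Sum.elim z.1 z.2

theorem toV_inj {m N : ℕ} {R : Type} : Function.Injective (toV (m := m) (N := N) (R := R)) := by
  rintro ⟨a, b⟩ ⟨a', b'⟩ h
  exact Prod.ext (funext fun j => congrFun h (Sum.inl j)) (funext fun j => congrFun h (Sum.inr j))

theorem toV_surj {m N : ℕ} {R : Type} (y : Fin (m + 1) ⊕ Fin (N + 1) → R) :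
    ∃ z : Pairs m N R, toV z = y := by
  refine ⟨(fun j => y (Sum.inl j), fun j => y (Sum.inr j)), ?_⟩
  funext j
  rcases j with j | j <;> rfl

theorem inClass_iff {R : Type} [CommRing R] {m N : ℕ} {M : Ideal R} (y : Pairs m N R)
    (z : Pairs m N (R ⧸ M)) :
    InClass y z ↔ ∀ j, Ideal.Quotient.mk M (toV y j) = toV z j := by
  constructor
  · rintro ⟨h1, h2⟩ (j | j)
    · exact h1 j
    · exact h2 j
  · intro h
    exact ⟨fun j => h (Sum.inl j), fun j => h (Sum.inr j)⟩

section holds

open Pool.Agent.X243.Gen (FF solvM solvM_normal mem_solvM solvM_not_splits)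

variable {k : Type} [Field k]

theorem gen3_ext (h3 : (3 : k) ≠ 0) {a b : k[X]} {N : ℕ} (hN : 5 ≤ N) (hb : FF N b)
    (hd : FF N (a ^ 3 - 27 * b)) {L L' : Type} [Field L] [Field L'] [Algebra L L']
    [Algebra k L] [Algebra k L'] [IsScalarTower k L L'] [IsSepClosure L L']
    (M : IntermediateField k L') [Normal k M]
    (hM : ∀ x : L, IsSeparable k x → algebraMap L L' x ∈ M)
    (h1 : ¬ (b.map (algebraMap k M)).Splits)
    (h2 : ¬ ((a ^ 3 - 27 * b).map (algebraMap k M)).Splits) :
    T3.Gen3 L' (a.map (algebraMap k L)) (b.map (algebraMap k L)) := by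
  have h3L : (3 : L) ≠ 0 := by
    rw [← map_ofNat (algebraMap k L) 3]
    exact (map_ne_zero_iff _ (algebraMap k L).injective).2 h3
  have t1 := T3.stays_gen hb.2.1 (by rw [hb.1.2]; exact hN) hb.2.2 L L' M hM h1
  have t2 := T3.stays_gen hd.2.1 (by rw [hd.1.2]; exact hN) hd.2.2 L L' M hM h2
  have e : (a ^ 3 - 27 * b).map (algebraMap k L) =
      (a.map (algebraMap k L)) ^ 3 - 27 * b.map (algebraMap k L) := by
    rw [Polynomial.map_sub, Polynomial.map_pow, Polynomial.map_mul, Polynomial.map_ofNat]
  rw [e] at t2
  have s1 : (b.map (algebraMap k L)).Separable := hb.2.1.map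
  have s2 : ((a ^ 3 - 27 * b).map (algebraMap k L)).Separable := hd.2.1.map
  rw [e] at s2
  generalize a.map (algebraMap k L) = a' at *
  generalize b.map (algebraMap k L) = b' at *
  refine ⟨h3L, ⟨b', 1, 1, s1, t1, one_ne_zero, by norm_num, ?_⟩,
      ⟨a' ^ 3 - 27 * b', 1, 1, s2, t2, one_ne_zero, by norm_num, ?_⟩⟩
  · rw [C_1, one_mul, pow_one]
  · rw [C_1, one_mul, pow_one]

theorem holds_ext (h3 : (3 : k) ≠ 0) {a b : k[X]} {N : ℕ} (hN : 5 ≤ N) (hb : FF N b)
    (hd : FF N (a ^ 3 - 27 * b)) {L L' K F : Type} [Field L] [Field L'] [Algebra L L'] [Field K]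
    [Algebra L[X] K] [Field F] [Algebra L'[X] F] [IsFractionRing L'[X] F]
    [Algebra K F] [Algebra k L] [Algebra k L'] [IsScalarTower k L L'] (hT : IsTower L L' K F)
    (M : IntermediateField k L') (hMn : Normal k M)
    (hM : ∀ x : L, IsSeparable k x → algebraMap L L' x ∈ M)
    (h1 : ¬ (b.map (algebraMap k M)).Splits)
    (h2 : ¬ ((a ^ 3 - 27 * b).map (algebraMap k M)).Splits) :
    HoldsOver a b L L' K F := by
  have hsc : IsSepClosure L L' := hT.sep
  have hG := gen3_ext h3 hN hb hd M hM h1 h2
  have n1 : T3.NoClasses (F := F) 3 L' (E3 L K a b) := T3.no3 (F := F) hT hG rfl rfl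
  have n2 : ∀ P : Pt (E3 L K a b) K, ∃ Q T : Pt (E3 L K a b) K, 3 • T = 0 ∧ P = 3 • Q + T :=
    T3.mw3 (F := F) hT hG rfl rfl
  exact ⟨n1.tate, n1, n2, fun hfg => T3.finite_of_three n2 hfg⟩

theorem holds_solv (h3 : (3 : k) ≠ 0) {a b : k[X]} {N : ℕ} (hN : 5 ≤ N) (hb : FF N b)
    (hd : FF N (a ^ 3 - 27 * b)) {L L' K F : Type} [Field L] [Field L'] [Algebra L L'] [Field K]
    [Algebra L[X] K] [Field F] [Algebra L'[X] F] [IsFractionRing L'[X] F]
    [Algebra K F] [Algebra k L] [Algebra k L'] [IsScalarTower k L L'] (hT : IsTower L L' K F)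
    (hM : ∀ x : L, IsSeparable k x → Group.IsSolvable (minpoly k x).Gal) :
    HoldsOver a b L L' K F := by
  have hsc : IsSepClosure L L' := hT.sep
  have : IsSepClosed L' := IsSepClosure.sep_closed L
  exact holds_ext h3 hN hb hd hT (solvM k L') (solvM_normal L')
    (fun x hx => mem_solvM hx (hM x hx))
    (solvM_not_splits L' hb.2.1 (by rw [hb.1.2]; exact hN) hb.2.2)
    (solvM_not_splits L' hd.2.1 (by rw [hd.1.2]; exact hN) hd.2.2)

end holds

theorem good_of {R k : Type} [CommRing R] [IsDomain R] [IsIntegrallyClosed R] [IsNoetherianRing R]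
    [Field k] [Algebra R k] [IsFractionRing R k] (h3 : (3 : R) ≠ 0)
    {m N B : ℕ} (hmN : 3 * m ≤ N) (hN : 5 ≤ N) {z : Pairs m N R}
    (h : ∀ s : Bool × Fin 3, ∃ p ∈ T3.Zh R B,
      (fun j => Ideal.Quotient.mk p (toV z j)) ∈ T3.Gev33 m N s (R ⧸ p)) :
    Good k N (poly k z.1) (poly k z.2) := by
  have h3k : (3 : k) ≠ 0 := by
    rw [← map_ofNat (algebraMap R k) 3]
    exact (map_ne_zero_iff _ (IsFractionRing.injective R k)).2 h3
  obtain ⟨h1, h2⟩ := T3.good3 (k := k) hmN (by omega : 3 ≤ N) h
    (poly k z.1) (poly k z.2)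
    (Pool.Agent.X243.Tate.bF_map (algebraMap R k) z.1).symm
    (Pool.Agent.X243.Tate.bF_map (algebraMap R k) z.2).symm
  refine ⟨⟨h1.1.1, h1.1.2, h1.2.1⟩, ⟨h2.1.1, h2.1.2, h2.2.1⟩, ?_, ?_⟩
  · intro L L' K F _ _ _ _ _ _ _ _ _ _ _ _ hT M hMn hM a1 a2
    exact holds_ext h3k hN h1 h2 hT M hMn hM a1 a2
  · intro L L' K F _ _ _ _ _ _ _ _ _ _ _ _ hT hM
    exact holds_solv h3k hN h1 h2 hT hM

theorem result :
    ∀ (R k : Type) [CommRing R] [IsDomain R] [IsIntegrallyClosed R] [Algebra.FiniteType ℤ R]
      [Field k] [Algebra R k] [IsFractionRing R k], ¬ IsField R → (3 : R) ≠ 0 →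
      ∀ m N : ℕ, 3 * m ≤ N → 5 ≤ N →
        (∀ η : ℝ, 0 < η → ∃ M : Ideal R, Finite (R ⧸ M) ∧
          (1 - η) * (Nat.card (Pairs m N (R ⧸ M)) : ℝ) ≤
          (({z : Pairs m N (R ⧸ M) | ∀ y : Pairs m N R, InClass y z →
                Good k N (poly k y.1) (poly k y.2)}.ncard : ℕ) : ℝ)) ∧
        (∀ B : ℕ → Finset (Pairs m N R), (∀ i, (B i).Nonempty) → Equidistributed B →
          Tendsto (fun i => (((B i).filter (fun y =>
              Good k N (poly k y.1) (poly k y.2))).card : ℝ) /
            ((B i).card : ℝ)) atTop (𝓝 1)) := by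
  intro R k _ _ _ _ _ _ _ hR h3 m N hmN hN
  have : IsNoetherianRing R := Algebra.FiniteType.isNoetherianRing ℤ R
  have hcard : ∀ M : Ideal R, (Nat.card (Pairs m N (R ⧸ M)) : ℝ) =
      (Nat.card (R ⧸ M) : ℝ) ^ (Fintype.card (Fin (m + 1) ⊕ Fin (N + 1))) := by
    intro M
    rw [Nat.card_congr (Equiv.ofBijective _ ⟨toV_inj (m := m) (N := N) (R := R ⧸ M), toV_surj⟩),
      Nat.card_fun, Nat.card_eq_fintype_card (α := Fin (m + 1) ⊕ Fin (N + 1))]
    push_cast
    rfl
  -- the good vectors
  obtain ⟨S, hS⟩ : ∃ S : Set (Fin (m + 1) ⊕ Fin (N + 1) → R),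
      S = {x | ∃ z : Pairs m N R, toV z = x ∧ Good k N (poly k z.1) (poly k z.2)} := ⟨_, rfl⟩
  have hSmem : ∀ y : Pairs m N R, toV y ∈ S ↔ Good k N (poly k y.1) (poly k y.2) := by
    intro y
    rw [hS]
    constructor
    · rintro ⟨z, hz, hg⟩
      rwa [toV_inj hz] at hg
    · intro hg
      exact ⟨y, rfl, hg⟩
  have key : ∀ η : ℝ, 0 < η → ∃ M : Ideal R, Finite (R ⧸ M) ∧
      (1 - η) * (Nat.card (R ⧸ M) : ℝ) ^ (Fintype.card (Fin (m + 1) ⊕ Fin (N + 1))) ≤
        (({x : Fin (m + 1) ⊕ Fin (N + 1) → R ⧸ M | ∀ y : Fin (m + 1) ⊕ Fin (N + 1) → R,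
          (∀ j, Ideal.Quotient.mk M (y j) = x j) → y ∈ S}).ncard : ℝ) := by
    intro η hη
    obtain ⟨M, hM, hd⟩ := T3.densThree R hR h3 (m := m) (by omega : 3 ≤ N) η hη
    have := hM
    refine ⟨M, hM, hd.trans ?_⟩
    have h3 : ∀ S T : Set (Fin (m + 1) ⊕ Fin (N + 1) → R ⧸ M), S ⊆ T →
        ((S.ncard : ℕ) : ℝ) ≤ ((T.ncard : ℕ) : ℝ) := fun S T h => by
      exact_mod_cast Set.ncard_le_ncard h (Set.toFinite _)
    apply h3
    intro x hx y hy
    obtain ⟨z, rfl⟩ := toV_surj y
    rw [hSmem]
    refine good_of ‹(3 : R) ≠ 0› (B := 2 * N + 2) hmN hN (fun s => ?_)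
    obtain ⟨p, hp, hp'⟩ := hx s
    exact ⟨p, hp, hp' (toV z) hy⟩
  constructor
  · intro η hη
    obtain ⟨M, hM, hd⟩ := key η hη
    have := hM
    refine ⟨M, hM, ?_⟩
    rw [hcard]
    refine hd.trans ?_
    rw [← Set.ncard_image_of_injective _ (toV_inj (R := R ⧸ M) (m := m) (N := N))]
    have h3 : ∀ S T : Set (Fin (m + 1) ⊕ Fin (N + 1) → R ⧸ M), S ⊆ T →
        ((S.ncard : ℕ) : ℝ) ≤ ((T.ncard : ℕ) : ℝ) := fun S T h => by
      exact_mod_cast Set.ncard_le_ncard h (Set.toFinite _)
    apply h3
    intro x hx
    obtain ⟨z, rfl⟩ := toV_surj x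
    refine ⟨z, fun y hy => ?_, rfl⟩
    rw [← hSmem]
    exact hx _ ((inClass_iff y z).1 hy)
  · intro B hB heq
    have hinj : Function.Injective (toV (R := R) (m := m) (N := N)) := toV_inj
    have hc : ∀ (i : ℕ) (P : (Fin (m + 1) ⊕ Fin (N + 1) → R) → Prop) [DecidablePred P]
        (Q : Pairs m N R → Prop) [DecidablePred Q], (∀ y, P (toV y) ↔ Q y) →
        (((B i).map ⟨toV, hinj⟩).filter P).card = ((B i).filter Q).card := by
      intro i P _ Q _ hPQ
      rw [Finset.filter_map, Finset.card_map]
      congr 1
      ext y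
      rw [Finset.mem_filter, Finset.mem_filter]
      exact and_congr_right fun _ => hPQ y
    have hlim := Pool.Agent.X243.Gen.tendsto_of_dens S key (fun i => (B i).map ⟨toV, hinj⟩)
      (fun i => (hB i).map) (by
        intro M hM x
        obtain ⟨z, rfl⟩ := toV_surj x
        have h1 := heq M hM z
        rw [hcard] at h1
        refine h1.congr fun i => ?_
        rw [Finset.card_map, hc i _ (fun y => InClass y z) (fun y => (inClass_iff y z).symm)])
    refine hlim.congr fun i => ?_
    rw [Finset.card_map, hc i _ (fun y => Good k N (poly k y.1) (poly k y.2)) hSmem]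

end Pool.Agent.Results.MP_89bcae_ag.OrderThreeSections
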